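import Pool.Agent.H93.PG.All

/-!
# Ergodic systems realised as invariant measures on power-free shifts
-/

set_option autoImplicit false

open MeasureTheory Pool.Agent.H93.PF

namespace Pool.Agent.Results.MP_32ebde_an.ExponentsTwo

/-- Let `X` be the `d`-ary `β`-free shift or `β⁺`-free shift, where `d ≥ 4` and `β ≥ 2`, or `d ≥ 3`
and the exponent is at least `2⁺`, or `d ≥ 2` and the exponent is at least `3⁺`. Every ergodic
aperiodic invertible measure preserving transformation `T` of a standard Borel probability space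
`(Y, ν)` whose Kolmogorov-Sinai entropy is smaller than the topological entropy of `X` is
isomorphic to `(X, σ, μ)` for some shift invariant Borel probability measure `μ` on `X`. -/
theorem result (d : ℕ) (β : ℝ) (plus : Bool)
    (hd : (4 ≤ d ∧ 2 ≤ β) ∨ (3 ≤ d ∧ (2 < β ∨ (2 ≤ β ∧ plus = true))) ∨
      (2 ≤ d ∧ (3 < β ∨ (3 ≤ β ∧ plus = true))))
    (Y : Type) [MeasurableSpace Y] [StandardBorelSpace Y] (ν : Measure Y)
    [IsProbabilityMeasure ν] (T : Y ≃ᵐ Y) (hT : Ergodic T ν)
    (hap : ∀ᵐ y ∂ν, ∀ n : ℕ, 0 < n → T^[n] y ≠ y)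
    (hent : ksEnt ν T < ((topEnt (PFS d β plus) : ℝ) : EReal)) :
    ∃ μ : Measure (ℤ → Fin d), IsProbabilityMeasure μ ∧ MeasurePreserving sh μ μ ∧
      μ (PFS d β plus)ᶜ = 0 ∧ Isom ν T μ sh :=
  Pool.Agent.H93.PG.All.r_FT3 d β plus hd Y ν T hT hap hent

end Pool.Agent.Results.MP_32ebde_an.ExponentsTwo
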